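import Pool.Agent.Helper87.MD.Goals
import Pool.Agent.Helper87.Lang.MER

/-!
# Project MD, packet SIG: the sum of the reciprocals of the divisors
-/

set_option autoImplicit false

open Finset

namespace Pool.Agent.Helper29.MD

open Pool.Agent.Helper98.Lang Pool.Agent.Helper87.MD

/-- `n ↦ 1 / n` -/
noncomputable def inv1 : ℕ →* ℝ where
  toFun n := (n : ℝ)⁻¹
  map_one' := by simp
  map_mul' a b := by push_cast; rw [mul_inv]

theorem inv1_apply (n : ℕ) : inv1 n = (n : ℝ)⁻¹ := rfl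

theorem sum_div_le (d : ℕ) (hd : 1 ≤ d) :
    ∑ g ∈ d.divisors, 1 / (g : ℝ) ≤ ∏ p ∈ d.primeFactors, (1 - (p : ℝ)⁻¹)⁻¹ := by
  have h1 := (EulerProduct.summable_and_hasSum_factoredNumbers_prod_filter_prime_geometric
    (f := inv1) (by
      intro p hp
      rw [inv1_apply, norm_inv, Real.norm_natCast]
      exact inv_lt_one_of_one_lt₀ (by exact_mod_cast hp.one_lt)) d.primeFactors).2
  have h2 : (d.primeFactors.filter Nat.Prime) = d.primeFactors := by
    apply Finset.filter_true_of_mem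
    intro p hp
    exact Nat.prime_of_mem_primeFactors hp
  rw [h2] at h1
  have hmem : ∀ g ∈ d.divisors, g ∈ Nat.factoredNumbers d.primeFactors := by
    intro g hg
    rw [Nat.mem_divisors] at hg
    rw [Nat.mem_factoredNumbers_iff_primeFactors_subset]
    refine ⟨?_, Nat.primeFactors_mono hg.1 hg.2⟩
    rintro rfl
    exact hg.2 (Nat.eq_zero_of_zero_dvd hg.1)
  have h3 := sum_le_hasSum (f := fun m : Nat.factoredNumbers d.primeFactors => inv1 m)
    (d.divisors.attach.map ⟨fun g => ⟨g.1, hmem g.1 g.2⟩, by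
      intro a b hab
      exact Subtype.ext (congrArg (fun x : Nat.factoredNumbers d.primeFactors => (x : ℕ)) hab)⟩)
    (fun m _ => by rw [inv1_apply]; positivity) h1
  rw [Finset.sum_map] at h3
  have h4 : ∑ g ∈ d.divisors, 1 / (g : ℝ) = ∑ g ∈ d.divisors.attach, 1 / ((g : ℕ) : ℝ) :=
    (Finset.sum_attach d.divisors (fun g => 1 / (g : ℝ))).symm
  rw [h4]
  refine le_trans (le_of_eq ?_) h3
  apply Finset.sum_congr rfl
  intro g _
  rw [one_div]
  rfl

theorem tele (m : ℕ) : ∏ k ∈ Ioc 1 (m + 1), (1 - 1 / (k : ℝ) ^ 2)⁻¹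
    = 2 * ((m : ℝ) + 1) / ((m : ℝ) + 2) := by
  induction m with
  | zero => norm_num
  | succ m ih =>
    rw [Finset.prod_Ioc_succ_top (by omega), ih]
    have h1 : ((m : ℝ) + 1) ≠ 0 := by positivity
    have h2 : ((m : ℝ) + 2) ≠ 0 := by positivity
    have h3 : ((m : ℝ) + 3) ≠ 0 := by positivity
    have h4 : (1 - 1 / ((m + 1 + 1 : ℕ) : ℝ) ^ 2)
        = ((m : ℝ) + 1) * ((m : ℝ) + 3) / ((m : ℝ) + 2) ^ 2 := by
      have : ((m + 1 + 1 : ℕ) : ℝ) = (m : ℝ) + 2 := by push_cast; ring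
      rw [this]
      field_simp
      ring
    rw [h4]
    have h5 : ((m + 1 : ℕ) : ℝ) = (m : ℝ) + 1 := by push_cast; ring
    rw [h5]
    have h6 : ((m : ℝ) + 1 + 1) = (m : ℝ) + 2 := by ring
    have h7 : ((m : ℝ) + 1 + 2) = (m : ℝ) + 3 := by ring
    rw [h6, h7, inv_div]
    field_simp

theorem one_le_pr (s : Finset ℕ) (f : ℕ → ℝ) (h : ∀ p ∈ s, 1 ≤ f p) : 1 ≤ ∏ p ∈ s, f p :=
  Finset.prod_induction f (fun x => 1 ≤ x) (fun _ _ ha hb => one_le_mul_of_one_le_of_one_le ha hb)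
    le_rfl h

theorem hfac (k : ℕ) (hk : 2 ≤ k) : (1 : ℝ) ≤ (1 - 1 / (k : ℝ) ^ 2)⁻¹ := by
  have hk' : (2 : ℝ) ≤ k := by exact_mod_cast hk
  rw [one_le_inv₀]
  · have : (0 : ℝ) ≤ 1 / (k : ℝ) ^ 2 := by positivity
    linarith
  · rw [sub_pos, div_lt_one (by positivity)]
    nlinarith

theorem sq_prod_le (s : Finset ℕ) (hs : ∀ p ∈ s, 2 ≤ p) :
    ∏ p ∈ s, (1 - 1 / (p : ℝ) ^ 2)⁻¹ ≤ 2 := by
  have hsub : s ⊆ Ioc 1 (s.sup id + 1) := by
    intro p hp
    rw [Finset.mem_Ioc]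
    exact ⟨hs p hp, (Finset.le_sup (f := id) hp).trans (Nat.le_succ _)⟩
  have h1 : ∏ p ∈ s, (1 - 1 / (p : ℝ) ^ 2)⁻¹
      ≤ ∏ p ∈ Ioc 1 (s.sup id + 1), (1 - 1 / (p : ℝ) ^ 2)⁻¹ := by
    rw [← Finset.prod_sdiff hsub]
    have hpos : (0 : ℝ) ≤ ∏ p ∈ s, (1 - 1 / (p : ℝ) ^ 2)⁻¹ :=
      Finset.prod_nonneg fun p hp => zero_le_one.trans (hfac p (hs p hp))
    have hone : (1 : ℝ) ≤ ∏ p ∈ Ioc 1 (s.sup id + 1) \ s, (1 - 1 / (p : ℝ) ^ 2)⁻¹ := by
      apply one_le_pr
      intro p hp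
      rw [Finset.mem_sdiff, Finset.mem_Ioc] at hp
      exact hfac p (by omega)
    nlinarith
  refine h1.trans ?_
  rw [tele (s.sup id)]
  rw [div_le_iff₀ (by positivity)]
  nlinarith [(Nat.cast_nonneg (s.sup id) : (0 : ℝ) ≤ _)]

/-- product over the primes of `d` of `(1 - 1/p)⁻¹` -/
theorem prod_inv_le (s : Finset ℕ) (hs : ∀ p ∈ s, 2 ≤ p) :
    ∏ p ∈ s, (1 - (p : ℝ)⁻¹)⁻¹ ≤ 2 * ∏ p ∈ s, (1 + 1 / (p : ℝ)) := by
  have h1 : ∏ p ∈ s, (1 - (p : ℝ)⁻¹)⁻¹
      = (∏ p ∈ s, (1 - 1 / (p : ℝ) ^ 2)⁻¹) * ∏ p ∈ s, (1 + 1 / (p : ℝ)) := by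
    rw [← Finset.prod_mul_distrib]
    apply Finset.prod_congr rfl
    intro p hp
    have hp' : (2 : ℝ) ≤ p := by exact_mod_cast hs p hp
    have e1 : (1 - 1 / (p : ℝ) ^ 2) = (1 - (p : ℝ)⁻¹) * (1 + 1 / (p : ℝ)) := by
      field_simp
      ring
    have e2 : (1 + 1 / (p : ℝ)) ≠ 0 := by positivity
    rw [e1, mul_inv, mul_assoc, inv_mul_cancel₀ e2, mul_one]
  rw [h1]
  apply mul_le_mul_of_nonneg_right (sq_prod_le s hs)
  exact Finset.prod_nonneg fun p _ => by positivity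

/-- number of prime factors -/
theorem card_pf_le (d : ℕ) (hd : 1 ≤ d) :
    (d.primeFactors.card : ℝ) ≤ 2 * Real.log d := by
  have h1 : 2 ^ d.primeFactors.card ≤ d := by
    calc 2 ^ d.primeFactors.card ≤ ∏ p ∈ d.primeFactors, p := by
          apply Finset.pow_card_le_prod
          intro p hp
          exact (Nat.prime_of_mem_primeFactors hp).two_le
      _ ≤ d := Nat.le_of_dvd hd (Nat.prod_primeFactors_dvd d)
  have h2 : (d.primeFactors.card : ℝ) * Real.log 2 ≤ Real.log d := by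
    rw [← Real.log_pow]
    apply Real.log_le_log (by positivity)
    exact_mod_cast h1
  have h3 : (1 / 2 : ℝ) ≤ Real.log 2 := by
    have := Real.log_two_gt_d9
    linarith
  have h4 : (0 : ℝ) ≤ (d.primeFactors.card : ℝ) := Nat.cast_nonneg _
  nlinarith

theorem mdSIG : SigStmt := by
  obtain ⟨C, hC1, hCV, -⟩ := Pool.Agent.Helper87.Lang.mer
  intro η hη
  refine ⟨2 * (C * (Real.log 3 + 1 / η)) * Real.exp 2, ?_, ?_⟩
  · have : 0 < Real.log 3 := Real.log_pos (by norm_num)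
    positivity
  intro d K hd hdK hK
  set L : ℝ := Real.log K with hL
  have hL1 : 1 ≤ L := by
    rw [hL, ← Real.log_exp 1]
    apply Real.log_le_log (Real.exp_pos _)
    have h1 := Real.exp_one_lt_d9
    have h2 : (3 : ℝ) ≤ K := by exact_mod_cast hK
    linarith
  set y : ℕ := ⌈L⌉₊ + 1 with hy
  have hyL : L ≤ y := by
    rw [hy]; push_cast
    have := Nat.le_ceil L
    linarith
  have hy2 : 2 ≤ y := by
    have : 1 ≤ ⌈L⌉₊ := Nat.one_le_ceil_iff.2 (by linarith)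
    omega
  have hyU : (y : ℝ) ≤ 3 * L := by
    rw [hy]; push_cast
    have := Nat.ceil_lt_add_one (show 0 ≤ L by linarith)
    linarith
  have hy0 : (0 : ℝ) < y := by linarith
  have hLη : 1 ≤ L ^ η := Real.one_le_rpow hL1 hη.le
  -- the small primes
  have hA : ∏ p ∈ d.primeFactors with p ≤ y, (1 + 1 / (p : ℝ)) ≤ V y := by
    have hsub : (d.primeFactors.filter (fun p => p ≤ y)) ⊆ pr 0 y := by
      intro p hp
      rw [Finset.mem_filter] at hp
      have hpp := Nat.prime_of_mem_primeFactors hp.1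
      rw [pr, Finset.mem_filter, Finset.mem_Ioc]
      exact ⟨⟨hpp.pos, hp.2⟩, hpp⟩
    rw [V, ← Finset.prod_sdiff hsub]
    have h0 : (0 : ℝ) ≤ ∏ p ∈ d.primeFactors with p ≤ y, (1 + 1 / (p : ℝ)) :=
      Finset.prod_nonneg fun p _ => by positivity
    have h1 : (1 : ℝ) ≤ ∏ p ∈ pr 0 y \ (d.primeFactors.filter (fun p => p ≤ y)),
        (1 + 1 / (p : ℝ)) := by
      apply one_le_pr
      intro p _
      have : (0 : ℝ) ≤ 1 / (p : ℝ) := by positivity
      linarith
    nlinarith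
  -- the large primes
  have hB : ∏ p ∈ d.primeFactors with ¬ p ≤ y, (1 + 1 / (p : ℝ)) ≤ Real.exp 2 := by
    calc ∏ p ∈ d.primeFactors with ¬ p ≤ y, (1 + 1 / (p : ℝ))
        ≤ ∏ p ∈ d.primeFactors with ¬ p ≤ y, Real.exp (1 / (y : ℝ)) := by
          apply Finset.prod_le_prod
          · intro p _
            positivity
          · intro p hp
            rw [Finset.mem_filter, not_le] at hp
            have h1 : (y : ℝ) ≤ p := by exact_mod_cast hp.2.le
            have h2 : 1 / (p : ℝ) ≤ 1 / (y : ℝ) := one_div_le_one_div_of_le hy0 h1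
            have h3 := Real.add_one_le_exp (1 / (y : ℝ))
            linarith
      _ = Real.exp (1 / (y : ℝ)) ^ (d.primeFactors.filter (fun p => ¬ p ≤ y)).card := by
          rw [Finset.prod_const]
      _ = Real.exp ((d.primeFactors.filter (fun p => ¬ p ≤ y)).card * (1 / (y : ℝ))) := by
          rw [Real.exp_nat_mul]
      _ ≤ Real.exp 2 := by
          apply Real.exp_le_exp.2
          have h1 : ((d.primeFactors.filter (fun p => ¬ p ≤ y)).card : ℝ)
              ≤ d.primeFactors.card := by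
            exact_mod_cast Finset.card_filter_le _ _
          have h2 := card_pf_le d hd
          have h3 : Real.log d ≤ L := by
            apply Real.log_le_log (by exact_mod_cast hd)
            exact_mod_cast hdK
          rw [mul_one_div, div_le_iff₀ hy0]
          linarith
  have hVy : V y ≤ C * ((Real.log 3 + 1 / η) * L ^ η) := by
    refine (hCV y hy2).trans ?_
    apply mul_le_mul_of_nonneg_left _ (by linarith)
    have h1 : Real.log y ≤ Real.log (3 * L) := Real.log_le_log hy0 hyU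
    rw [Real.log_mul (by norm_num) (by linarith)] at h1
    have h2 := Real.log_le_rpow_div (show 0 ≤ L by linarith) hη
    have h3 : Real.log 3 ≤ Real.log 3 * L ^ η :=
      le_mul_of_one_le_right (Real.log_nonneg (by norm_num)) hLη
    calc Real.log y ≤ Real.log 3 + Real.log L := h1
      _ ≤ Real.log 3 * L ^ η + L ^ η / η := add_le_add h3 h2
      _ = (Real.log 3 + 1 / η) * L ^ η := by ring
  have hB0 : (0 : ℝ) ≤ ∏ p ∈ d.primeFactors with ¬ p ≤ y, (1 + 1 / (p : ℝ)) :=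
    Finset.prod_nonneg fun p _ => by positivity
  have hA0 : (0 : ℝ) ≤ ∏ p ∈ d.primeFactors with p ≤ y, (1 + 1 / (p : ℝ)) :=
    Finset.prod_nonneg fun p _ => by positivity
  calc ∑ g ∈ d.divisors, 1 / (g : ℝ)
      ≤ ∏ p ∈ d.primeFactors, (1 - (p : ℝ)⁻¹)⁻¹ := sum_div_le d hd
    _ ≤ 2 * ∏ p ∈ d.primeFactors, (1 + 1 / (p : ℝ)) :=
        prod_inv_le _ fun p hp => (Nat.prime_of_mem_primeFactors hp).two_le
    _ = 2 * ((∏ p ∈ d.primeFactors with p ≤ y, (1 + 1 / (p : ℝ)))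
          * ∏ p ∈ d.primeFactors with ¬ p ≤ y, (1 + 1 / (p : ℝ))) := by
        rw [Finset.prod_filter_mul_prod_filter_not]
    _ ≤ 2 * ((C * ((Real.log 3 + 1 / η) * L ^ η)) * Real.exp 2) := by
        apply mul_le_mul_of_nonneg_left _ (by norm_num)
        exact mul_le_mul (hA.trans hVy) hB hB0 (hA0.trans (hA.trans hVy))
    _ = 2 * (C * (Real.log 3 + 1 / η)) * Real.exp 2 * L ^ η := by ring

end Pool.Agent.Helper29.MD
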